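import Pool.Agent.LibCF.Fin

/-!
A cluster algebra of geometric type without coefficient variables (given by a quiver on nine
vertices) has no basis containing all cluster monomials with nonnegative structure constants.
-/

set_option autoImplicit false

namespace Pool.Agent.Results.MP_5c78ab_al.CoefficientFree

open Pool.Agent.LibSP Pool.Agent.LibCF

/-- The cluster algebra with initial exchange matrix `quiB` (`n = m = 9`, skew-symmetric, no
coefficient variables). -/
theorem result :
    (∀ i j : Fin 9, quiB (Sum.inl i) j = -quiB (Sum.inl j) i) ∧
      ¬ ∃ C : Set (FractionRing (MvPolynomial (Idx 9 0) ℚ)),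
        StronglyPositiveBasis (initialSeed quiB) C :=
  ⟨quiB_skew, no_basis'⟩

end Pool.Agent.Results.MP_5c78ab_al.CoefficientFree
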