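import Pool.Agent.LibSP.FinC

/-!
A cluster algebra of geometric type (rank 4, two coefficient variables, skew-symmetric exchange
matrix) without a basis containing all cluster monomials and having nonnegative structure
constants: the strong positivity conjecture with noninverted coefficient variables is false.
-/

set_option autoImplicit false

namespace Pool.Agent.Results.MP_5c78ab_al.NoStronglyPositiveBasis

open Pool.Agent.LibSP

/-- The rows of `exB` are `(0,-1,-2,2)`, `(1,0,0,-2)`, `(2,0,0,-1)`, `(-2,2,1,0)` (cluster
variables) and `(0,-1,0,0)`, `(0,0,1,0)` (coefficient variables). -/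
theorem result :
    (∀ i j : Fin 4, exB (Sum.inl i) j = -exB (Sum.inl j) i) ∧
      ¬ ∃ C : Set (FractionRing (MvPolynomial (Idx 4 2) ℚ)),
        StronglyPositiveBasis (initialSeed exB) C :=
  ⟨exB_skew, no_basis⟩

end Pool.Agent.Results.MP_5c78ab_al.NoStronglyPositiveBasis
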